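import Mathlib
import Pool.Agent.N691.QB.Loc

/-!
# K17-2N, local part: the curve `y² = x (x + 1) (x - 16)` over a quadratic extension of `ℚ₂`
-/

set_option autoImplicit false

open WithZero

namespace Pool.Agent.N50.K17

open Pool.Agent.N691.QB

section Loc

variable {L : Type} [Field L] {v : Valuation L ℤᵐ⁰}

/-- for every point `x + 1` is a square times `1 + 4 z` -/
theorem pt (h20 : (2 : L) ≠ 0) {u y : L} (hy : y ≠ 0) (h : y ^ 2 = u * (u + 1) * (u - 16)) :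
    ∃ s z : L, v z ≤ 1 ∧ s ≠ 0 ∧ (u + 1) * s ^ 2 = 1 + 4 * z := by
  have h40 : (4 : L) ≠ 0 := by
    rw [show (4 : L) = 2 ^ 2 by norm_num]
    exact pow_ne_zero _ h20
  have hy2 : y ^ 2 ≠ 0 := pow_ne_zero _ hy
  have hu : u ≠ 0 := by
    rintro rfl
    apply hy2
    rw [h]; ring
  have hu1 : u + 1 ≠ 0 := by
    intro h0
    apply hy2
    rw [h, h0]; ring
  have hu16 : u - 16 ≠ 0 := by
    intro h0
    apply hy2
    rw [h, h0]; ring
  have hvu : v u ≠ 0 := (v.ne_zero_iff).2 hu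
  have hv4 : v (4 : L) ≠ 0 := (v.ne_zero_iff).2 h40
  rcases le_total (v u) (v 4) with hc | hc
  · refine ⟨1, u / 4, ?_, one_ne_zero, ?_⟩
    · rw [map_div₀]
      exact div_le_one_of_le₀ hc zero_le
    · field_simp
      ring
  · refine ⟨(u - 16) / y, -(4 / u), ?_, div_ne_zero hu16 hy, ?_⟩
    · rw [Valuation.map_neg, map_div₀]
      exact div_le_one_of_le₀ hc zero_le
    · rw [div_pow, h]
      field_simp
      ring

theorem int_one (h2 : v 2 < 1) {n : ℤ} (hn : n % 2 = 1) : v (n : L) = 1 := by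
  obtain ⟨k, hk⟩ : ∃ k : ℤ, n = 1 + 2 * k := ⟨n / 2, by omega⟩
  rw [hk]
  push_cast
  rw [v.map_add_eq_of_lt_left, map_one]
  rw [map_one, map_mul]
  calc v 2 * v (k : L) ≤ v 2 * 1 := by
        gcongr
        exact int_le v k
    _ < 1 := by rwa [mul_one]

theorem sq_even {g : ℤᵐ⁰} {n : ℤ} (h : g ^ 2 = exp n) : Even n ∧ ∀ k, n = 2 * k → g = exp k := by
  have hg : g ≠ 0 := by
    rintro rfl
    rw [zero_pow (by norm_num)] at h
    exact exp_ne_zero h.symm
  have h1 : 2 * log g = n := by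
    have := congrArg log h
    rw [log_pow, log_exp] at this
    simpa using this
  refine ⟨⟨log g, by omega⟩, fun k hk => ?_⟩
  rw [← exp_log hg]
  congr 1
  omega

theorem round {g : ℤᵐ⁰} (h : g ^ 2 ≤ exp (-1 : ℤ)) : g ≤ exp (-1 : ℤ) := by
  by_cases hg : g = 0
  · rw [hg]
    exact zero_le
  · rw [← exp_log hg] at h ⊢
    rw [← exp_nsmul, exp_le_exp] at h
    rw [exp_le_exp]
    simp at h
    omega

/-- the ramification at `2` of `ℚ(√m)`, `m ≡ 3 mod 4` -/
theorem ram3_val (h2 : v 2 = exp (-1 : ℤ) ∨ v 2 = exp (-2 : ℤ)) {m : ℤ} (hm : m % 4 = 3) {ρ : L}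
    (hρ : ρ ^ 2 = (m : L)) : v 2 = exp (-2 : ℤ) ∧ v ρ = 1 ∧ v (1 + ρ) = exp (-1 : ℤ) := by
  have hlt : v 2 < 1 := by
    rcases h2 with h | h <;> rw [h, ← exp_zero, exp_lt_exp] <;> norm_num
  obtain ⟨k, hk⟩ : ∃ k : ℤ, m = 4 * k - 1 := ⟨(m + 1) / 4, by omega⟩
  have hvρ : v ρ = 1 := by
    have h1 : v ρ ^ 2 = exp (0 : ℤ) := by
      rw [← map_pow, hρ, int_one hlt (by omega), exp_zero]
    have := (sq_even h1).2 0 (by norm_num)
    rwa [exp_zero] at this
  have hk1 : v ((k : ℤ) : L) ≤ 1 := int_le v k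
  have hu : v (ρ + 2 * k) = 1 := by
    rw [v.map_add_eq_of_lt_left, hvρ]
    rw [hvρ, map_mul]
    calc v 2 * v (k : L) ≤ v 2 * 1 := by gcongr
      _ < 1 := by rwa [mul_one]
  have h3 : v (1 + ρ) ^ 2 = v 2 := by
    rw [← map_pow, show (1 + ρ) ^ 2 = 2 * (ρ + 2 * k) by
      have : ρ ^ 2 = 4 * k - 1 := by rw [hρ, hk]; push_cast; ring
      linear_combination this, map_mul, hu, mul_one]
  rcases h2 with h2 | h2
  · rw [h2] at h3
    have := (sq_even h3).1
    exact absurd this (by decide)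
  · rw [h2] at h3
    exact ⟨h2, hvρ, (sq_even h3).2 (-1) (by norm_num)⟩

/-- `m ≡ 3 mod 4` -/
theorem ram3 (h2 : v 2 = exp (-1 : ℤ) ∨ v 2 = exp (-2 : ℤ)) (h20 : (2 : L) ≠ 0) {m : ℤ}
    (hm : m % 4 = 3) {ρ : L}
    (hρ : ρ ^ 2 = (m : L)) {b : ℤ} (hb : Squarefree b) {t z : L} (hz : v z ≤ 1)
    (h : t ^ 2 = b * (1 + 4 * z)) : ¬ (2 : ℤ) ∣ b := by
  obtain ⟨hv2, hvρ, hπ⟩ := ram3_val h2 hm hρ
  intro h2b
  obtain ⟨c, rfl, hc⟩ := odd_of_two_dvd hb h2b
  obtain ⟨j, hj⟩ : ∃ j : ℤ, c = 2 * j + 1 := ⟨c / 2, by omega⟩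
  obtain ⟨k, hk⟩ : ∃ k : ℤ, m = 4 * k - 1 := ⟨(m + 1) / 4, by omega⟩
  have hlt : v 2 < 1 := by
    rw [hv2, ← exp_zero, exp_lt_exp]; norm_num
  have hvc : v (c : L) = 1 := int_one hlt hc
  have hvk : v (k : L) ≤ 1 := int_le v k
  have hvj : v (j : L) ≤ 1 := int_le v j
  have hρ' : ρ ^ 2 = 4 * k - 1 := by rw [hρ, hk]; push_cast; ring
  have hjL : (c : L) = 2 * j + 1 := by rw [hj]; push_cast; ring
  have hπ0 : 1 + ρ ≠ 0 := by
    intro h0
    rw [h0, map_zero] at hπ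
    exact exp_ne_zero hπ.symm
  have hv2x : ∀ x : L, v x ≤ 1 → v (2 * x) ≤ exp (-2 : ℤ) := by
    intro x hx
    rw [map_mul, hv2]
    calc exp (-2 : ℤ) * v x ≤ exp (-2 : ℤ) * 1 := by gcongr
      _ = _ := mul_one _
  have hle21 : (exp (-2 : ℤ) : ℤᵐ⁰) ≤ exp (-1 : ℤ) := by
    rw [exp_le_exp]; norm_num
  obtain ⟨s, hs⟩ : ∃ s : L, t = s * (1 + ρ) := ⟨t / (1 + ρ), by field_simp⟩
  have hs2 : s ^ 2 * (ρ + 2 * k) = c * (1 + 4 * z) := by
    apply mul_left_cancel₀ h20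
    rw [hs] at h
    push_cast at h
    linear_combination h + s ^ 2 * (-hρ')
  have hv4z : v (1 + 4 * z) = 1 := by
    rw [v.map_add_eq_of_lt_left, map_one]
    rw [map_one, show (4 : L) * z = 2 * (2 * z) by ring, map_mul]
    calc v 2 * v (2 * z) ≤ v 2 * 1 := by
          gcongr
          exact (hv2x z hz).trans (by rw [← exp_zero, exp_le_exp]; norm_num)
      _ < 1 := by rwa [mul_one]
  have hu : v (ρ + 2 * k) = 1 := by
    rw [v.map_add_eq_of_lt_left, hvρ]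
    rw [hvρ, map_mul]
    calc v 2 * v (k : L) ≤ v 2 * 1 := by gcongr
      _ < 1 := by rwa [mul_one]
  have hvs : v s = 1 := by
    have h1 : v s ^ 2 = exp (0 : ℤ) := by
      have := congrArg v hs2
      rw [map_mul, map_mul, hu, hvc, hv4z, map_pow] at this
      rw [exp_zero]
      simpa using this
    have := (sq_even h1).2 0 (by norm_num)
    rwa [exp_zero] at this
  have hvs1 : v s ≤ 1 := hvs.le
  have hvs2 : v (s ^ 2) ≤ 1 := by rw [map_pow, hvs, one_pow]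
  have hv2' : v (2 : L) ≤ 1 := hlt.le
  -- the first approximation
  have e1 : (s - 1) ^ 2 = (1 + ρ) * s ^ 2 + 2 * (-j + -(2 * (c * z)) + k * s ^ 2 + -s) := by
    rw [hjL] at hs2 ⊢
    linear_combination -hs2
  have h1 : v (s - 1) ^ 2 ≤ exp (-1 : ℤ) := by
    rw [← map_pow, e1]
    refine (v.map_add _ _).trans (max_le ?_ ((hv2x _ ?_).trans hle21))
    · rw [map_mul, hπ]
      calc exp (-1 : ℤ) * v (s ^ 2) ≤ exp (-1 : ℤ) * 1 := by gcongr
        _ = _ := mul_one _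
    · exact add_le1 (add_le1 (add_le1 (neg_le1 hvj) (neg_le1 (mul_le1 hv2' (mul_le1 hvc.le hz))))
        (mul_le1 hvk hvs2)) (neg_le1 hvs1)
  have h3 := round h1
  -- the second approximation
  have e2 : 1 + ρ = 2 * (1 + j + 2 * (c * z) + -(k * s ^ 2) + -((s - 1) * ρ)) +
      -((s - 1) ^ 2 * ρ) := by
    rw [hjL] at hs2 ⊢
    linear_combination hs2
  have h4 : v (1 + ρ) ≤ exp (-2 : ℤ) := by
    rw [e2]
    refine (v.map_add _ _).trans (max_le (hv2x _ ?_) ?_)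
    · have h5 : v (s - 1) ≤ 1 := h3.trans (by rw [← exp_zero, exp_le_exp]; norm_num)
      exact add_le1 (add_le1 (add_le1 (add_le1 (map_one v).le hvj)
        (mul_le1 hv2' (mul_le1 hvc.le hz))) (neg_le1 (mul_le1 hvk hvs2)))
        (neg_le1 (mul_le1 h5 hvρ.le))
    · rw [Valuation.map_neg, map_mul, hvρ, mul_one, map_pow]
      calc v (s - 1) ^ 2 ≤ exp (-1 : ℤ) ^ 2 := by gcongr
        _ = exp (-2 : ℤ) := by rw [← exp_nsmul]; norm_num
  rw [hπ, exp_le_exp] at h4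
  norm_num at h4

/-- the ramification at `2` of `ℚ(√m)`, `m` even -/
theorem ram0_val (h2 : v 2 = exp (-1 : ℤ) ∨ v 2 = exp (-2 : ℤ)) {m : ℤ} (hm : m % 2 = 1) {ρ : L}
    (hρ : ρ ^ 2 = ((2 * m : ℤ) : L)) : v 2 = exp (-2 : ℤ) ∧ v ρ = exp (-1 : ℤ) := by
  have hlt : v 2 < 1 := by
    rcases h2 with h | h <;> rw [h, ← exp_zero, exp_lt_exp] <;> norm_num
  have h3 : v ρ ^ 2 = v 2 := by
    rw [← map_pow, hρ]
    push_cast
    rw [map_mul, int_one hlt hm, mul_one]
  rcases h2 with h2 | h2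
  · rw [h2] at h3
    have := (sq_even h3).1
    exact absurd this (by decide)
  · rw [h2] at h3
    exact ⟨h2, (sq_even h3).2 (-1) (by norm_num)⟩

/-- `m` even, `b` odd -/
theorem ram0 (h2 : v 2 = exp (-1 : ℤ) ∨ v 2 = exp (-2 : ℤ)) (h20 : (2 : L) ≠ 0) {m : ℤ}
    (hm : m % 2 = 1) {ρ : L}
    (hρ : ρ ^ 2 = ((2 * m : ℤ) : L)) {b : ℤ} (hb : b % 2 = 1) {t z : L} (hz : v z ≤ 1)
    (h : t ^ 2 = b * (1 + 4 * z)) : b % 4 = 1 := by
  obtain ⟨hv2, hvρ⟩ := ram0_val h2 hm hρ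
  by_contra hb4
  obtain ⟨c, hc⟩ : ∃ c : ℤ, b = 4 * c - 1 := ⟨(b + 1) / 4, by omega⟩
  obtain ⟨j, hj⟩ : ∃ j : ℤ, m = 2 * j + 1 := ⟨m / 2, by omega⟩
  have hlt : v 2 < 1 := by
    rw [hv2, ← exp_zero, exp_lt_exp]; norm_num
  have hv2' : v (2 : L) ≤ 1 := hlt.le
  have hvc : v (c : L) ≤ 1 := int_le v c
  have hvj : v (j : L) ≤ 1 := int_le v j
  have hv4 : v (4 : L) ≤ 1 := by
    have := int_le v 4
    exact_mod_cast this
  have hcL : (b : L) = 4 * c - 1 := by rw [hc]; push_cast; ring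
  have hρ' : ρ ^ 2 = 2 * (2 * j + 1) := by rw [hρ, hj]; push_cast; ring
  have hρ0 : ρ ≠ 0 := by
    intro h0
    rw [h0, map_zero] at hvρ
    exact exp_ne_zero hvρ.symm
  have hv2x : ∀ x : L, v x ≤ 1 → v (2 * x) ≤ exp (-2 : ℤ) := by
    intro x hx
    rw [map_mul, hv2]
    calc exp (-2 : ℤ) * v x ≤ exp (-2 : ℤ) * 1 := by gcongr
      _ = _ := mul_one _
  have hexp2 : (exp (-2 : ℤ) : ℤᵐ⁰) < 1 := by rw [← exp_zero, exp_lt_exp]; norm_num
  obtain ⟨z', hz', ht⟩ : ∃ z' : L, v z' ≤ 1 ∧ t ^ 2 = -1 + 4 * z' := by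
    refine ⟨c + 4 * (c * z) + -z, add_le1 (add_le1 hvc (mul_le1 hv4 (mul_le1 hvc hz)))
      (neg_le1 hz), ?_⟩
    rw [h, hcL]
    ring
  have hone : ∀ x y : L, v x = 1 → v y ≤ 1 → v (x + 2 * y) = 1 := by
    intro x y hx hy
    rw [v.map_add_eq_of_lt_left, hx]
    rw [hx]
    exact (hv2x y hy).trans_lt hexp2
  have hvt : v t = 1 := by
    have h1 : v t ^ 2 = exp (0 : ℤ) := by
      rw [← map_pow, ht, show (-1 : L) + 4 * z' = -1 + 2 * (2 * z') by ring,
        hone _ _ (by simp) (mul_le1 hv2' hz'), exp_zero]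
    have := (sq_even h1).2 0 (by norm_num)
    rwa [exp_zero] at this
  have h1 : v (t - 1) = exp (-1 : ℤ) := by
    have h3 : v (t - 1) ^ 2 = exp (-2 : ℤ) := by
      rw [← map_pow, show (t - 1) ^ 2 = 2 * (-t + 2 * z') by linear_combination ht, map_mul, hv2,
        hone _ _ (by rw [Valuation.map_neg, hvt]) hz', mul_one]
    exact (sq_even h3).2 (-1) (by norm_num)
  obtain ⟨g, hg⟩ : ∃ g : L, t = 1 + ρ * g := ⟨(t - 1) / ρ, by field_simp; ring⟩
  have hvg : v g = 1 := by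
    rw [hg, add_sub_cancel_left, map_mul, hvρ] at h1
    have h3 : (exp (-1 : ℤ) : ℤᵐ⁰) ≠ 0 := exp_ne_zero
    exact (mul_eq_left₀ h3).1 h1
  have e1 : 1 + ρ * g + g ^ 2 + 2 * (j * g ^ 2) = 2 * z' := by
    apply mul_left_cancel₀ h20
    rw [hg] at ht
    linear_combination ht - g ^ 2 * hρ'
  have e2 : (g + 1) ^ 2 = -(ρ * g) + 2 * (z' + -(j * g ^ 2) + g) := by
    linear_combination e1
  have hvg2 : v (g ^ 2) ≤ 1 := by rw [map_pow, hvg, one_pow]
  have hng : v (-(ρ * g)) = exp (-1 : ℤ) := by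
    rw [Valuation.map_neg, map_mul, hvρ, hvg, mul_one]
  have h3 : v (g + 1) ^ 2 = exp (-1 : ℤ) := by
    rw [← map_pow, e2, v.map_add_eq_of_lt_left, hng]
    rw [hng]
    refine (hv2x _ (add_le1 (add_le1 hz' (neg_le1 (mul_le1 hvj hvg2))) hvg.le)).trans_lt ?_
    rw [exp_lt_exp]; norm_num
  have := (sq_even h3).1
  exact absurd this (by decide)

/-- parity of the valuation of `x`, unramified case -/
theorem ptA (h2 : v 2 = exp (-1 : ℤ)) {u y : L} (hy : y ≠ 0)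
    (h : y ^ 2 = u * (u + 1) * (u - 16)) : Even (log (v u)) := by
  have h20 := two_ne h2
  have hy2 : y ^ 2 ≠ 0 := pow_ne_zero _ hy
  have hu : u ≠ 0 := by
    rintro rfl
    apply hy2
    rw [h]; ring
  have hu1 : u + 1 ≠ 0 := by
    intro h0
    apply hy2
    rw [h, h0]; ring
  have hu16 : u - 16 ≠ 0 := by
    intro h0
    apply hy2
    rw [h, h0]; ring
  have hvu : v u ≠ 0 := (v.ne_zero_iff).2 hu
  have hvu1 : v (u + 1) ≠ 0 := (v.ne_zero_iff).2 hu1
  have hvu16 : v (u - 16) ≠ 0 := (v.ne_zero_iff).2 hu16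
  have hlog : 2 * log (v y) = log (v u) + log (v (u + 1)) + log (v (u - 16)) := by
    have := congrArg (fun x => log (v x)) h
    simp only [map_pow, map_mul] at this
    rw [log_pow, log_mul (mul_ne_zero hvu hvu1) hvu16, log_mul hvu hvu1] at this
    simpa using this
  have hv16 : v (16 : L) = exp (-4 : ℤ) := by
    rw [show (16 : L) = 2 ^ 4 by norm_num, map_pow, h2, ← exp_nsmul]
    norm_num
  set q := log (v u) with hq
  have hvq : v u = exp q := (exp_log hvu).symm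
  have hy' : (y / u) ^ 2 = (u + 1) * (1 - 16 / u) := by
    field_simp
    linear_combination h
  have hv8 : v (8 : L) = exp (-3 : ℤ) := by
    rw [show (8 : L) = 2 ^ 3 by norm_num, map_pow, h2, ← exp_nsmul]
    norm_num
  have hv4 : v (4 : L) = exp (-2 : ℤ) := by
    rw [show (4 : L) = 2 ^ 2 by norm_num, map_pow, h2, ← exp_nsmul]
    norm_num
  rcases le_or_gt 0 q with hq0 | hq0
  · rcases hq0.eq_or_lt with h0 | h0
    · rw [← h0]; exact ⟨0, rfl⟩
    · have e1 : v (u + 1) = v u := by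
        apply Valuation.map_add_eq_of_lt_left
        rw [map_one, hvq, ← exp_zero, exp_lt_exp]
        exact h0
      have e2 : v (u - 16) = v u := by
        rw [sub_eq_add_neg]
        apply Valuation.map_add_eq_of_lt_left
        rw [Valuation.map_neg, hv16, hvq, exp_lt_exp]
        omega
      rw [e1, e2] at hlog
      exact ⟨log (v y) - q, by omega⟩
  · have e1 : v (u + 1) = 1 := by
      rw [Valuation.map_add_eq_of_lt_right, map_one]
      rw [map_one, hvq, ← exp_zero, exp_lt_exp]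
      exact hq0
    rw [e1, log_one, add_zero] at hlog
    have hcase : q = -1 ∨ q = -3 ∨ (q ≤ -2 ∧ q ≠ -3) := by omega
    rcases hcase with h1 | h1 | ⟨h1, h1'⟩
    · exfalso
      have he : v (u / 2) = 1 := by
        rw [map_div₀, hvq, h2, h1, ← exp_sub]
        norm_num
      have hW : v (-((2 / (u / 2)) * (u + 1))) ≤ 1 := by
        rw [Valuation.map_neg, map_mul, e1, mul_one, map_div₀, he, div_one]
        exact (two_lt h2).le
      have hE := unit_add h2 he hW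
      have h5 : (y / u) ^ 2 = 1 + 2 * (u / 2 + 2 * (-((2 / (u / 2)) * (u + 1)))) := by
        rw [hy']
        field_simp
        ring
      have h7 := sq_form h2 hE.le h5
      rw [hE] at h7
      exact lt_irrefl _ h7
    · exfalso
      have h80 : (8 : L) ≠ 0 := by
        rw [show (8 : L) = 2 ^ 3 by norm_num]
        exact pow_ne_zero _ h20
      have he : v (u / 8) = 1 := by
        rw [map_div₀, hvq, hv8, h1, ← exp_sub]
        norm_num
      have hx : v (-(1 / (u / 8) * (u + 1))) = 1 := by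
        rw [Valuation.map_neg, map_mul, e1, mul_one, map_div₀, he, div_one, map_one]
      have hW : v (2 * (u / 8)) ≤ 1 := by
        rw [map_mul, he, mul_one]
        exact (two_lt h2).le
      have hE := unit_add h2 hx hW
      have h5 : (y / u) ^ 2 = 1 + 2 * (-(1 / (u / 8) * (u + 1)) + 2 * (2 * (u / 8))) := by
        rw [hy']
        field_simp
        ring
      have h7 := sq_form h2 hE.le h5
      rw [hE] at h7
      exact lt_irrefl _ h7
    · have h3 : q = -2 ∨ q = -4 ∨ q < -4 := by omega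
      rcases h3 with h3 | h3 | h3
      · rw [h3]; exact ⟨-1, rfl⟩
      · rw [h3]; exact ⟨-2, rfl⟩
      · have e2 : v (u - 16) = exp (-4 : ℤ) := by
          rw [← hv16, ← Valuation.map_neg v 16, sub_eq_add_neg]
          apply Valuation.map_add_eq_of_lt_right
          rw [Valuation.map_neg, hv16, hvq, exp_lt_exp]
          exact h3
        rw [e2, log_exp] at hlog
        exact ⟨log (v y) + 2, by omega⟩

end Loc

end Pool.Agent.N50.K17
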