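import Mathlib
import Pool.Agent.N691.QB.Unr
import Pool.Agent.N50.K17.Loc2

/-!
# K17-2N, global part: the ramification at `2` of the quadratic fields
(the first part is an adaptation of `N691/QB/Unr.lean`)
-/

set_option autoImplicit false

open NumberField IsDedekindDomain WithZero

namespace Pool.Agent.N50.K17

open Pool.Agent.N691.QB

variable {K : Type} [Field K] [NumberField K] {m : ℤ} {r : K}

/-- `(1 + √m) / 2` -/
theorem exists_omega' {k : ℤ} (hk : m = 4 * k + 1) (hr : r ^ 2 = (m : K)) :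
    ∃ ω : 𝓞 K, algebraMap (𝓞 K) K ω = (1 + r) / 2 ∧ ω ^ 2 - ω - ((k : ℤ) : 𝓞 K) = 0 := by
  have hw : ((1 + r) / 2) ^ 2 - (1 + r) / 2 + ((-k : ℤ) : K) = 0 := by
    have h1 := hr
    rw [hk] at h1
    push_cast at h1 ⊢
    linear_combination (1 / 4) * h1
  have hi : IsIntegral ℤ ((1 + r) / 2) := by
    refine ⟨Polynomial.X ^ 2 - Polynomial.X + Polynomial.C (-(k : ℤ)), ?_, ?_⟩
    · have : (Polynomial.X ^ 2 - Polynomial.X + Polynomial.C (-(k : ℤ)) : Polynomial ℤ) =
        Polynomial.X ^ 2 + (- Polynomial.X + Polynomial.C (-(k : ℤ))) := by ring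
      rw [this]
      apply Polynomial.monic_X_pow_add
      compute_degree!
    · simp only [Polynomial.eval₂_add, Polynomial.eval₂_sub, Polynomial.eval₂_pow,
        Polynomial.eval₂_X, Polynomial.eval₂_C]
      exact hw
  obtain ⟨ω, hω⟩ := (IsIntegralClosure.isIntegral_iff (R := ℤ) (A := 𝓞 K)).1 hi
  refine ⟨ω, hω, ?_⟩
  apply FaithfulSMul.algebraMap_injective (𝓞 K) K
  rw [map_sub, map_sub, map_pow, map_intCast, map_zero, hω]
  push_cast at hw
  linear_combination hw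

/-- `2` is not ramified if `m ≡ 1 mod 4` -/
theorem two_not_mem_sq {k : ℤ} (hk : m = 4 * k + 1) (hr : r ^ 2 = (m : K))
    (hK : ∀ x : K, ∃ a b : ℚ, x = (a : K) + (b : K) * r)
    (v : HeightOneSpectrum (𝓞 K)) (hv : ((2 : ℕ) : 𝓞 K) ∈ v.asIdeal) :
    ((2 : ℕ) : 𝓞 K) ∉ v.asIdeal ^ 2 := by
  intro h2
  obtain ⟨ω, hω, hω2⟩ := exists_omega' hk hr
  have hadj : Algebra.adjoin ℚ {algebraMap (𝓞 K) K ω} = ⊤ := by
    rw [eq_top_iff]
    rintro x -
    obtain ⟨a, b, hx⟩ := hK x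
    have e : x = algebraMap ℚ K (a - b) + algebraMap ℚ K (2 * b) * algebraMap (𝓞 K) K ω := by
      rw [hω, hx]
      simp only [eq_ratCast]
      push_cast
      ring
    rw [e]
    exact add_mem (Subalgebra.algebraMap_mem _ _) (mul_mem (Subalgebra.algebraMap_mem _ _)
      (Algebra.subset_adjoin rfl))
  have h3 := aeval_derivative_mem_differentIdeal ℤ ℚ K ω hadj
  have hpp : Prime (2 : ℤ) := Int.prime_two
  have hpb : Ideal.span {(2 : ℤ)} ≠ ⊥ := by
    rw [Ne, Ideal.span_singleton_eq_bot]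
    norm_num
  have hpm : (Ideal.span {(2 : ℤ)}).IsMaximal :=
    Ideal.IsPrime.isMaximal ((Ideal.span_singleton_prime hpp.ne_zero).2 hpp) hpb
  have h4' : v.asIdeal ^ (2 - 1) ∣ differentIdeal ℤ (𝓞 K) := by
    apply pow_sub_one_dvd_differentIdeal ℤ v.asIdeal 2 (p := Ideal.span {(2 : ℤ)}) hpb
    rw [Ideal.map_span, Set.image_singleton, Ideal.dvd_span_singleton]
    simpa using h2
  rw [pow_one, Ideal.dvd_iff_le] at h4'
  have h5 := h4' h3
  have hint : IsIntegral ℤ ω := RingOfIntegers.isIntegral ω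
  obtain ⟨g, hg⟩ : minpoly ℤ ω ∣
      (Polynomial.X ^ 2 - Polynomial.X - Polynomial.C (k : ℤ) : Polynomial ℤ) := by
    apply minpoly.isIntegrallyClosed_dvd hint
    simpa using hω2
  have h6 := congrArg (fun q => Polynomial.aeval ω (Polynomial.derivative q)) hg
  simp only [Polynomial.derivative_X_pow, Polynomial.derivative_C,
    sub_zero, Polynomial.derivative_mul, map_add, map_mul, minpoly.aeval, zero_mul, add_zero,
    Polynomial.derivative_X, map_sub, map_one] at h6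
  have h7 : 2 * ω - 1 ∈ v.asIdeal := by
    have e : 2 * ω - 1 = Polynomial.aeval ω (Polynomial.derivative (minpoly ℤ ω)) *
        Polynomial.aeval ω g := by
      rw [← h6, Polynomial.aeval_C, map_pow, Polynomial.aeval_X]
      norm_num
    rw [e]
    exact Ideal.mul_mem_right _ _ h5
  have h8 : ((m : ℤ) : 𝓞 K) ∈ v.asIdeal := by
    have e : ((m : ℤ) : 𝓞 K) = (2 * ω - 1) * (2 * ω - 1) := by
      have e2 : ((m : ℤ) : 𝓞 K) = 4 * ((k : ℤ) : 𝓞 K) + 1 := by
        rw [hk]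
        push_cast
        ring
      rw [e2]
      linear_combination -4 * hω2
    rw [e]
    exact Ideal.mul_mem_left _ _ h7
  exact not_mem_of_not_dvd Nat.prime_two v hv _ (by push_cast; omega) h8

omit [NumberField K] in
theorem finrank_le [NumberField K] (hK : ∀ x : K, ∃ a b : ℚ, x = (a : K) + (b : K) * r) :
    Module.finrank ℚ K ≤ 2 := by
  classical
  have hs : Submodule.span ℚ (({1, r} : Finset K) : Set K) = ⊤ := by
    rw [eq_top_iff]
    rintro x -
    obtain ⟨a, b, hx⟩ := hK x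
    have e : x = a • (1 : K) + b • r := by
      rw [hx, Rat.smul_def, Rat.smul_def, mul_one]
    rw [e]
    exact add_mem (Submodule.smul_mem _ _ (Submodule.subset_span (by simp)))
      (Submodule.smul_mem _ _ (Submodule.subset_span (by simp)))
  have h1 := finrank_span_finset_le_card (R := ℚ) ({1, r} : Finset K)
  rw [Set.finrank, hs, finrank_top] at h1
  exact h1.trans Finset.card_le_two

/-- the ramification index is at most two -/
theorem two_not_mem_cube (hK : ∀ x : K, ∃ a b : ℚ, x = (a : K) + (b : K) * r)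
    (v : HeightOneSpectrum (𝓞 K)) : (2 : 𝓞 K) ∉ v.asIdeal ^ 3 := by
  intro h3
  have h1 : Ideal.span {(2 : 𝓞 K)} ≤ v.asIdeal ^ 3 := by
    rw [Ideal.span_singleton_le_iff_mem]
    exact h3
  have h2 := Ideal.absNorm_dvd_absNorm_of_le h1
  rw [map_pow, Ideal.absNorm_span_singleton] at h2
  have h4 : Algebra.norm ℤ (2 : 𝓞 K) = 2 ^ Module.finrank ℚ K := by
    have := Algebra.norm_algebraMap (S := 𝓞 K) (2 : ℤ)
    rw [RingOfIntegers.rank] at this
    rw [← this]
    exact congrArg _ (map_ofNat (algebraMap ℤ (𝓞 K)) 2).symm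
  have h5 : (Algebra.norm ℤ (2 : 𝓞 K)).natAbs ≤ 4 := by
    rw [h4, Int.natAbs_pow]
    calc (2 : ℤ).natAbs ^ Module.finrank ℚ K ≤ (2 : ℤ).natAbs ^ 2 :=
        Nat.pow_le_pow_right (by norm_num) (finrank_le hK)
      _ = 4 := rfl
  have h6 : (Algebra.norm ℤ (2 : 𝓞 K)).natAbs ≠ 0 := by
    rw [h4]
    simp
  have h7 : Ideal.absNorm v.asIdeal ≠ 1 := by
    rw [Ne, Ideal.absNorm_eq_one_iff]
    exact v.isPrime.ne_top
  have h8 : Ideal.absNorm v.asIdeal ≠ 0 := by
    intro h0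
    rw [h0, zero_pow (by norm_num)] at h2
    exact h6 (Nat.eq_zero_of_zero_dvd h2)
  have h9 : 2 ≤ Ideal.absNorm v.asIdeal := by omega
  have h10 := Nat.le_of_dvd (Nat.pos_of_ne_zero h6) h2
  have h11 : 2 ^ 3 ≤ Ideal.absNorm v.asIdeal ^ 3 := Nat.pow_le_pow_left h9 3
  omega

/-- the valuation of `2` -/
theorem valued_two (hK : ∀ x : K, ∃ a b : ℚ, x = (a : K) + (b : K) * r)
    (v : HeightOneSpectrum (𝓞 K)) (hv : (2 : 𝓞 K) ∈ v.asIdeal) :
    Valued.v (2 : v.adicCompletion K) = exp (-1 : ℤ) ∨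
      Valued.v (2 : v.adicCompletion K) = exp (-2 : ℤ) := by
  have e0 : Valued.v (2 : v.adicCompletion K) = v.intValuation (2 : 𝓞 K) := by
    have h := valued_int (K := K) v 2
    have e : algebraMap (𝓞 K) K (2 : 𝓞 K) = ((2 : ℤ) : K) := by
      rw [map_ofNat]
      norm_num
    rw [← e, HeightOneSpectrum.valuation_of_algebraMap] at h
    rw [← h]
    norm_num
  rw [e0]
  have h1 : v.intValuation (2 : 𝓞 K) ≤ exp (-(1 : ℕ) : ℤ) := by
    rw [HeightOneSpectrum.intValuation_le_pow_iff_mem, pow_one]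
    exact hv
  have h3 : ¬ v.intValuation (2 : 𝓞 K) ≤ exp (-(3 : ℕ) : ℤ) := by
    rw [HeightOneSpectrum.intValuation_le_pow_iff_mem]
    exact two_not_mem_cube hK v
  have h0 : v.intValuation (2 : 𝓞 K) ≠ 0 := by
    intro h0
    apply h3
    rw [h0]
    exact zero_le
  generalize v.intValuation (2 : 𝓞 K) = x at h0 h1 h3
  rw [← exp_log h0] at h1 h3 ⊢
  rw [exp_le_exp] at h1 h3
  push_cast at h1 h3
  have h5 : log x = -1 ∨ log x = -2 := by omega
  rcases h5 with h5 | h5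
  · left
    rw [h5]
  · right
    rw [h5]

/-- the valuation of `2`, `m ≡ 1 mod 4` -/
theorem valued_two_unr (hm : m % 4 = 1) (hr : r ^ 2 = (m : K))
    (hK : ∀ x : K, ∃ a b : ℚ, x = (a : K) + (b : K) * r)
    (v : HeightOneSpectrum (𝓞 K)) (hv : (2 : 𝓞 K) ∈ v.asIdeal) :
    Valued.v (2 : v.adicCompletion K) = exp (-1 : ℤ) := by
  obtain ⟨k, hk⟩ : ∃ k : ℤ, m = 4 * k + 1 := ⟨m / 4, by omega⟩
  have hv' : ((2 : ℕ) : 𝓞 K) ∈ v.asIdeal := by exact_mod_cast hv
  have h1 := val_exp v hv' (two_not_mem_sq hk hr hK v hv')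
  have h := valued_int (K := K) v 2
  push_cast at h h1
  rw [h, h1]

/-- the condition at the places over `2` -/
theorem main2 (hm : Squarefree m) (hr : r ^ 2 = (m : K))
    (hK : ∀ x : K, ∃ a b : ℚ, x = (a : K) + (b : K) * r)
    (w : HeightOneSpectrum (𝓞 K)) (hw : (2 : 𝓞 K) ∈ w.asIdeal) {a b : ℤ} (ha : Squarefree a)
    (hb : Squarefree b) {x y : w.adicCompletion K} (hy : y ≠ 0)
    (h : y ^ 2 = x * (x + 1) * (x - 16)) (hsa : IsSquare (x * (a : w.adicCompletion K)))
    (hsb : IsSquare ((x + 1) * (b : w.adicCompletion K))) :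
    (m % 4 = 1 → ¬ (2 : ℤ) ∣ a ∧ b % 4 = 1) ∧ (m % 4 = 3 → ¬ (2 : ℤ) ∣ b) ∧
    ((2 : ℤ) ∣ m → (b % 4 = 1 ∨ ((2 : ℤ) ∣ b ∧ ((b / 2) * (m / 2)) % 4 = 1))) := by
  have h2 := valued_two hK w hw
  have h20 : (2 : w.adicCompletion K) ≠ 0 := by
    intro h0
    rw [h0, map_zero] at h2
    rcases h2 with h2 | h2 <;> exact exp_ne_zero h2.symm
  obtain ⟨s, z, hz, hs, hsz⟩ := pt (v := Valued.v) h20 hy h
  obtain ⟨c, hc⟩ := hsb
  have hform : (s * c) ^ 2 = (b : w.adicCompletion K) * (1 + 4 * z) := by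
    rw [← hsz]
    linear_combination (-s ^ 2) * hc
  have hρ : (algebraMap K (w.adicCompletion K) r) ^ 2 = (m : w.adicCompletion K) := by
    rw [← map_pow, hr, map_intCast]
  have hx : x ≠ 0 := by
    rintro rfl
    apply hy
    have : y ^ 2 = 0 := by rw [h]; ring
    exact pow_eq_zero_iff (by norm_num) |>.1 this
  refine ⟨fun h4 => ?_, fun h4 => ?_, fun h4 => ?_⟩
  · have hv2 := valued_two_unr h4 hr hK w hw
    refine ⟨?_, b_form hv2 hb hz hform⟩
    have hev := ptA hv2 hy h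
    apply odd_of_even_log hv2 ha
    obtain ⟨c, hc'⟩ := hsa
    have h3 := congrArg (fun q => log (Valued.v q)) hc'
    have hva : Valued.v (a : w.adicCompletion K) ≠ 0 := v_ne hv2 ha
    have hvx : Valued.v x ≠ (0 : ℤᵐ⁰) := (Valuation.ne_zero_iff _).2 hx
    have hvc : Valued.v c ≠ (0 : ℤᵐ⁰) := by
      intro h0
      have := congrArg (fun q => Valued.v q) hc'
      simp only [map_mul, h0, mul_zero] at this
      exact mul_ne_zero hvx hva this
    simp only [map_mul] at h3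
    rw [log_mul hvx hva, log_mul hvc hvc] at h3
    obtain ⟨e, he⟩ := hev
    exact ⟨log (Valued.v c) - e, by omega⟩
  · exact ram3 h2 h20 h4 hρ hb hz hform
  · obtain ⟨n, rfl, hn⟩ := odd_of_two_dvd hm h4
    by_cases hb2 : (2 : ℤ) ∣ b
    · obtain ⟨d, rfl, hd⟩ := odd_of_two_dvd hb hb2
      right
      refine ⟨hb2, ?_⟩
      have e1 : 2 * d / 2 = d := by omega
      have e2 : 2 * n / 2 = n := by omega
      rw [e1, e2]
      have hdn : (d * n) % 2 = 1 := by
        rw [Int.mul_emod, hd, hn]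
        norm_num
      refine ram0 (t := algebraMap K (w.adicCompletion K) r * (s * c) / 2) h2 h20 hn hρ hdn hz ?_
      rw [div_pow, mul_pow, hρ, hform]
      push_cast
      field_simp
    · left
      exact ram0 h2 h20 hn hρ (by omega) hz hform

end Pool.Agent.N50.K17
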