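import Pool.Agent.N875.K17.Stm
import Pool.Agent.N50.K17.Glob2

/-!
# K17-2N: the necessary condition at the places over `2`
-/

set_option autoImplicit false

open NumberField IsDedekindDomain

namespace Pool.Agent.N50.K17

open Pool.Agent.N875.K17

theorem t_2N : S_2N := by
  intro m hm hm1 K _ _ r hQ w hw a b ha hb hL
  obtain ⟨x, y, hy, h, hsa, hsb⟩ := hL
  refine main2 hm hQ.hr hQ.hK w hw ha hb hy (by rw [h]; push_cast; ring) ?_ ?_
  · have e : x - ((0 : ℤ) : w.adicCompletion K) = x := by push_cast; ring
    rwa [e] at hsa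
  · have e : x - ((-1 : ℤ) : w.adicCompletion K) = x + 1 := by push_cast; ring
    rwa [e] at hsb

end Pool.Agent.N50.K17
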